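import Pool.Agent.N60.ZG.CNT
import Pool.Agent.N60.ZG.COMB
import Pool.Agent.N60.ZG.PIG
import Pool.Agent.N60.ZG.IND
import Pool.Agent.N60.ZG.INC
import Pool.Agent.N60.ZG.APPP

/-!
# The gcd recursion with `n^p - 1`: the gaps between the zeros

After a zero `n` the value is `V(n+1) = (n+1)^p - 1`, and the gcds which are subtracted can be of the size of the value, so that a
priori only `n' - n ≥ c log n` is clear for the next zero `n'`. Here `n' - n ≥ c (log (n/p))^2` is proved, with an absolute constant,
and hence the number of the zeros up to `X` is `O(X / (log X)^2)`, which would follow by the sieve from a positive answer to Q1.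

Proof. Let `g, g'` be the gcds at the steps `k < k'`, `μ = V(k)/g`, `μ' = V(k')/g'`, and let `σ` be the sum of the gcds in between.
Then `μ μ' σ` is a multiple of `V(k)`, plus a small positive term, so that `V(k) ≤ μ μ' (σ + V(k') - V(k))`: between two large gcds the
others add up to at least `g g' / (4 V)`. If one of them has at least this size, then the Farey tree of pairs of natural numbers
appears; if not, there are many of them at some scale `b^s` below, more than `162 (1+s)^3`, and then the sum of the numbers of the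
coprime pairs for the gaps between them is at least as large.
-/

set_option autoImplicit false

namespace Pool.Agent.Results.MP_e7655a_nt.ZeroGaps

open Pool.Agent.N60.ZG

/-- There is an absolute constant `c > 0` such that for all primes `p` and the sequence `a = a_p` of the problem: (1) any two zeros
`n < n'` of `a` with `n ≥ p` satisfy `n' - n ≥ c (log (n/p))²`; (2) there is `C` (depending on `p` only) such that for all `X ≥ 2` the
number of the zeros `n ≤ X` is at most `C X / (log X)²`. -/
theorem result : ∃ c : ℝ, 0 < c ∧ ∀ p : ℕ, p.Prime → ∀ a : ℕ → ℤ, a 1 = 1 →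
      (∀ n : ℕ, 2 ≤ n →
        a n = |a (n - 1) - ((Int.gcd (a (n - 1)) ((n : ℤ) ^ p - 1) : ℕ) : ℤ)|) →
      (∀ n n' : ℕ, 1 ≤ n → n < n' → a n = 0 → a n' = 0 → p ≤ n →
        c * (Real.log (n / p)) ^ 2 ≤ (n' : ℝ) - n) ∧
      ∃ C : ℝ, ∀ X : ℕ, 2 ≤ X → ({n : ℕ | 1 ≤ n ∧ n ≤ X ∧ a n = 0}.ncard : ℝ) ≤ C * (X / (Real.log X) ^ 2) := by
  obtain ⟨c, hc, h⟩ := appp_main inc_main
    (main' diag_main comb_main pig_main ind_main)
  refine ⟨c, hc, fun p hp a ha1 ha => ⟨h p hp a ha1 ha, ?_⟩⟩
  obtain ⟨C, hC, hcount⟩ := count (c / 4) (by positivity) (p ^ 2)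
  refine ⟨C, hcount (fun n => a n = 0) (fun n n' hM h1 h2 h3 h4 => ?_)⟩
  have hp2 := hp.two_le
  have hpn : p ≤ n := le_trans (by nlinarith) hM
  refine le_trans ?_ (h p hp a ha1 ha n n' h1 h2 h3 h4 hpn)
  have hp0 : (0 : ℝ) < p := by exact_mod_cast hp.pos
  have hn0 : (0 : ℝ) < n := by exact_mod_cast (by omega : 0 < n)
  have hlp : 0 ≤ Real.log p := Real.log_natCast_nonneg p
  have e1 : 2 * Real.log p ≤ Real.log n := by
    have : Real.log ((p : ℝ) ^ 2) ≤ Real.log n := Real.log_le_log (by positivity) (by exact_mod_cast hM)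
    rwa [Real.log_pow] at this
  have e2 : Real.log (n / p) = Real.log n - Real.log p := Real.log_div hn0.ne' hp0.ne'
  have e3 : 1 / 2 * Real.log n ≤ Real.log (n / p) := by
    rw [e2]
    linarith
  have e4 : 0 ≤ 1 / 2 * Real.log n := by
    have := Real.log_natCast_nonneg n
    positivity
  calc c / 4 * (Real.log n) ^ 2 = c * (1 / 2 * Real.log n) ^ 2 := by ring
    _ ≤ c * (Real.log (n / p)) ^ 2 := by gcongr

end Pool.Agent.Results.MP_e7655a_nt.ZeroGaps
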